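import Pool.Agent.TH837.KS.Core

/-!
The asymptotic form of the lower bounds for `k`-CNFs.
-/

set_option autoImplicit false

namespace Pool.Agent.TH837.KS

open Finset Filter
open scoped ENNReal Topology
open Pool.Agent.TH837.SC (Ins)

theorem asy {k : ℕ} (hk : 2 ≤ k) {ρ c r : ℝ} (hρ : 1 ≤ ρ) (hc0 : 0 < c) (hc : c < 1 - 2 * ρ / 3)
    (hr : 1 ≤ r) : ∃ M : ℕ, ∀ n ≥ M, ∀ (L : List (Ins (Pat n k))) (Z : Finset (Fin n → Bool)),
      KReq L Z (ENNReal.ofReal (ρ * n ^ k)) →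
      (Z.card : ℝ) * (r ^ (c ^ (1 / (k : ℝ)))) ^ n ≤ L.length * (1 + r) ^ n := by
  have hd : 0 < (1 - 2 * ρ / 3) - c := by linarith
  obtain ⟨M, hM⟩ := exists_nat_ge (3 / ((1 - 2 * ρ / 3) - c))
  refine ⟨max M 2, fun n hn L Z hreq => ?_⟩
  have hn2 : 2 ≤ n := le_trans (le_max_right _ _) hn
  have hnM : (M : ℝ) ≤ n := by exact_mod_cast le_trans (le_max_left _ _) hn
  have hnR : (2 : ℝ) ≤ n := by exact_mod_cast hn2
  obtain ⟨N, hN⟩ : ∃ N : ℝ, N = (n : ℝ) ^ k := ⟨_, rfl⟩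
  have hNn : (n : ℝ) ≤ N := by
    rw [hN]
    calc (n : ℝ) = n ^ 1 := by rw [pow_one]
      _ ≤ n ^ k := pow_le_pow_right₀ (by linarith) (by omega)
  have hdN : 3 ≤ ((1 - 2 * ρ / 3) - c) * N := by
    have h1 := hM.trans (hnM.trans hNn)
    rw [div_le_iff₀ hd] at h1
    linarith
  obtain ⟨h, hh1, hh2⟩ : ∃ h : ℕ, (h : ℝ) ≤ 2 * ρ / 3 * N ∧ 2 * ρ / 3 * N < h + 1 :=
    ⟨⌊2 * ρ / 3 * N⌋₊, Nat.floor_le (by
      have h1 : (0 : ℝ) ≤ N := by linarith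
      have h2 : (0 : ℝ) ≤ ρ := by linarith
      positivity), Nat.lt_floor_add_one _⟩
  have hhN : h < n ^ k := by
    have h1 : (h : ℝ) < N := by
      have : 0 < (1 - 2 * ρ / 3) * N := by nlinarith
      linarith
    rw [hN] at h1
    exact_mod_cast h1
  have hh0 : 1 ≤ h := by
    have h1 : (0 : ℝ) < h := by nlinarith
    exact_mod_cast h1
  set g := c ^ (1 / (k : ℝ)) with hg
  have hk0 : (0 : ℝ) < k := by
    have : 0 < k := by omega
    exact_mod_cast this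
  have hgk : g ^ k = c := by
    rw [hg, ← Real.rpow_natCast, ← Real.rpow_mul hc0.le]
    rw [one_div, inv_mul_cancel₀ hk0.ne', Real.rpow_one]
  have hg0 : 0 < g := Real.rpow_pos_of_pos hc0 _
  have hrg : 0 < r ^ (g * n) := Real.rpow_pos_of_pos (by linarith) _
  have hV : ∀ x : Fin n → Bool, (univ.filter fun x' : Fin n → Bool =>
      n ^ k ≤ agree x x' ^ k + (h + 2)).card ≤ ⌊(1 + r) ^ n / r ^ (g * n)⌋₊ := by
    intro x
    apply Nat.le_floor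
    rw [le_div_iff₀ hrg]
    refine le_trans (mul_le_mul_of_nonneg_right (Nat.cast_le.2 (card_le_card fun x' hx' => ?_))
      hrg.le) (ball x (g := g) hr)
    rw [mem_filter] at hx' ⊢
    refine ⟨mem_univ _, ?_⟩
    have h1 : (n : ℝ) ^ k ≤ (agree x x' : ℝ) ^ k + (h + 2) := by exact_mod_cast hx'.2
    have h2 : (g * n) ^ k ≤ (agree x x' : ℝ) ^ k := by
      rw [mul_pow, hgk, ← hN]
      rw [← hN] at h1
      linarith
    exact le_of_pow_le_pow_left₀ (by omega) (by positivity) h2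
  have hcount := count hk hreq (by linarith) hh0 hhN (m := h + 2) (by omega) (by
    rw [← hN]; push_cast; linarith) hV
  have h1 : (Z.card : ℝ) ≤ L.length * ((1 + r) ^ n / r ^ (g * n)) := by
    calc (Z.card : ℝ) ≤ ((L.length * ⌊(1 + r) ^ n / r ^ (g * n)⌋₊ : ℕ) : ℝ) := by
          exact_mod_cast hcount
      _ = L.length * (⌊(1 + r) ^ n / r ^ (g * n)⌋₊ : ℝ) := by push_cast; rfl
      _ ≤ _ := mul_le_mul_of_nonneg_left (Nat.floor_le (by positivity)) (by positivity)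
  rw [← mul_div_assoc, le_div_iff₀ hrg] at h1
  have h2 : (r ^ g) ^ n = r ^ (g * n) := by
    rw [← Real.rpow_natCast, ← Real.rpow_mul (by linarith)]
  rw [h2]
  exact h1

theorem two_rpow_mul (x : ℝ) (n : ℕ) : (2 : ℝ) ^ (x * n) = ((2 : ℝ) ^ x) ^ n := by
  rw [Real.rpow_mul (by norm_num), Real.rpow_natCast]

/-- the strong form: exponent `1 - ε` -/
theorem seth (ρ ε : ℝ) (hρ : 1 ≤ ρ) (hρ2 : ρ < 3 / 2) (hε : 0 < ε) (hε1 : ε < 1) :
    ∃ k₀ : ℕ, ∀ k ≥ k₀, ∃ M : ℕ, ∀ n ≥ M, ∀ (L : List (Ins (Pat n k)))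
      (Z : Finset (Fin n → Bool)), KReq L Z (ENNReal.ofReal (ρ * n ^ k)) →
      (2 : ℝ) ^ (-(ε / 2 * n)) * 2 ^ n ≤ Z.card → (2 : ℝ) ^ ((1 - ε) * n) < L.length := by
  obtain ⟨c, hc⟩ : ∃ c : ℝ, c = (1 - 2 * ρ / 3) / 2 := ⟨_, rfl⟩
  have hc0 : 0 < c := by rw [hc]; linarith
  have hcρ : c < 1 - 2 * ρ / 3 := by rw [hc]; linarith
  have hb1 : (1 : ℝ) < 2 ^ (ε / 8) := Real.one_lt_rpow (by norm_num) (by positivity)
  have hb2 : (2 : ℝ) ^ (ε / 8) ≤ 2 := by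
    calc (2 : ℝ) ^ (ε / 8) ≤ 2 ^ (1 : ℝ) :=
          Real.rpow_le_rpow_of_exponent_le (by norm_num) (by linarith)
      _ = 2 := Real.rpow_one _
  obtain ⟨r, hr⟩ : ∃ r : ℝ, r = 1 / (2 ^ (ε / 8) - 1) := ⟨_, rfl⟩
  have hr1 : 1 ≤ r := by
    rw [hr, le_div_iff₀ (by linarith)]; linarith
  have hr0 : 0 < r := by linarith
  have h1r : 1 + r = r * 2 ^ (ε / 8) := by
    have : r * (2 ^ (ε / 8) - 1) = 1 := by
      rw [hr]
      have h1 : (2 : ℝ) ^ (ε / 8) - 1 ≠ 0 := by linarith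
      field_simp
    linarith
  have hlim : Tendsto (fun k : ℕ => r ^ (1 - c ^ (1 / (k : ℝ)))) atTop (𝓝 1) := by
    have h1 : Tendsto (fun k : ℕ => c ^ (1 / (k : ℝ))) atTop (𝓝 (c ^ (0 : ℝ))) :=
      (Real.continuousAt_const_rpow hc0.ne').tendsto.comp tendsto_one_div_atTop_nhds_zero_nat
    rw [Real.rpow_zero] at h1
    have h2 : Tendsto (fun k : ℕ => 1 - c ^ (1 / (k : ℝ))) atTop (𝓝 0) := by
      have := h1.const_sub 1
      simpa using this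
    have h3 : Tendsto (fun k : ℕ => r ^ (1 - c ^ (1 / (k : ℝ)))) atTop (𝓝 (r ^ (0 : ℝ))) :=
      (Real.continuousAt_const_rpow hr0.ne').tendsto.comp h2
    rwa [Real.rpow_zero] at h3
  obtain ⟨k₁, hk₁⟩ := eventually_atTop.1 (hlim.eventually_lt_const hb1)
  refine ⟨max k₁ 2, fun k hk => ?_⟩
  have hk2 : 2 ≤ k := le_trans (le_max_right _ _) hk
  have hkr := hk₁ k (le_trans (le_max_left _ _) hk)
  obtain ⟨M, hM⟩ := asy hk2 hρ hc0 hcρ hr1
  refine ⟨max M 1, fun n hn L Z hreq hZ => ?_⟩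
  have hn1 : 1 ≤ n := le_trans (le_max_right _ _) hn
  have h1 := hM n (le_trans (le_max_left _ _) hn) L Z hreq
  -- `1 + r ≤ r ^ g 2 ^ (ε / 4)`
  have hrg : 0 < r ^ (c ^ (1 / (k : ℝ))) := Real.rpow_pos_of_pos hr0 _
  have h2 : 1 + r ≤ r ^ (c ^ (1 / (k : ℝ))) * 2 ^ (ε / 4) := by
    have h3 : r = r ^ (c ^ (1 / (k : ℝ))) * r ^ (1 - c ^ (1 / (k : ℝ))) := by
      rw [← Real.rpow_add hr0]
      have : c ^ (1 / (k : ℝ)) + (1 - c ^ (1 / (k : ℝ))) = 1 := by ring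
      rw [this, Real.rpow_one]
    have h4 : (2 : ℝ) ^ (ε / 4) = 2 ^ (ε / 8) * 2 ^ (ε / 8) := by
      rw [← Real.rpow_add (by norm_num)]; congr 1; ring
    calc 1 + r = r * 2 ^ (ε / 8) := h1r
      _ = (r ^ (c ^ (1 / (k : ℝ))) * r ^ (1 - c ^ (1 / (k : ℝ)))) * 2 ^ (ε / 8) := by rw [← h3]
      _ ≤ (r ^ (c ^ (1 / (k : ℝ))) * 2 ^ (ε / 8)) * 2 ^ (ε / 8) := by gcongr
      _ = _ := by rw [h4]; ring
  have h3 : (Z.card : ℝ) ≤ L.length * (2 ^ (ε / 4)) ^ n := by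
    have h4 : (Z.card : ℝ) * (r ^ (c ^ (1 / (k : ℝ)))) ^ n ≤
        L.length * (2 ^ (ε / 4)) ^ n * (r ^ (c ^ (1 / (k : ℝ)))) ^ n := by
      calc _ ≤ L.length * (1 + r) ^ n := h1
        _ ≤ L.length * (r ^ (c ^ (1 / (k : ℝ))) * 2 ^ (ε / 4)) ^ n := by gcongr
        _ = _ := by rw [mul_pow]; ring
    exact le_of_mul_le_mul_right h4 (by positivity)
  have h4 := hZ.trans h3
  rw [← two_rpow_mul] at h4
  have h5 : (2 : ℝ) ^ (-(ε / 2 * n)) * 2 ^ n = 2 ^ ((1 - 3 * ε / 4) * n) * 2 ^ (ε / 4 * n) := by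
    rw [← Real.rpow_natCast 2 n, ← Real.rpow_add (by norm_num), ← Real.rpow_add (by norm_num)]
    congr 1
    ring
  rw [h5] at h4
  have h6 : (2 : ℝ) ^ ((1 - 3 * ε / 4) * n) ≤ L.length :=
    le_of_mul_le_mul_right h4 (by positivity)
  refine lt_of_lt_of_le ?_ h6
  apply Real.rpow_lt_rpow_of_exponent_lt (by norm_num)
  have : (1 : ℝ) ≤ n := by exact_mod_cast hn1
  nlinarith

/-- for each `k`: an exponential bound for the factors below `3 / 2 (1 - 2 ^ (-k))` -/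
theorem eth (k : ℕ) (hk : 2 ≤ k) (ρ : ℝ) (hρ : 1 ≤ ρ) (hρ2 : ρ < 3 / 2 * (1 - 1 / 2 ^ k)) :
    ∃ γ : ℝ, 0 < γ ∧ ∃ M : ℕ, ∀ n ≥ M, ∀ (L : List (Ins (Pat n k)))
      (Z : Finset (Fin n → Bool)), KReq L Z (ENNReal.ofReal (ρ * n ^ k)) →
      (2 : ℝ) ^ (-(γ * n)) * 2 ^ n ≤ Z.card → (2 : ℝ) ^ (γ * n) ≤ L.length := by
  obtain ⟨c, hc⟩ : ∃ c : ℝ, c = ((1 - 2 * ρ / 3) + 1 / 2 ^ k) / 2 := ⟨_, rfl⟩
  have hk2 : (0 : ℝ) < 1 / 2 ^ k := by positivity
  have hc1 : 1 / 2 ^ k < c := by rw [hc]; linarith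
  have hc0 : 0 < c := hk2.trans hc1
  have hcρ : c < 1 - 2 * ρ / 3 := by rw [hc]; linarith
  have hk0 : (0 : ℝ) < k := by
    have : 0 < k := by omega
    exact_mod_cast this
  obtain ⟨g, hg⟩ : ∃ g : ℝ, g = c ^ (1 / (k : ℝ)) := ⟨_, rfl⟩
  have hg2 : 1 / 2 < g := by
    rw [hg]
    calc (1 : ℝ) / 2 = ((1 / 2) ^ k) ^ (1 / (k : ℝ)) := by
          rw [← Real.rpow_natCast, ← Real.rpow_mul (by norm_num), mul_one_div_cancel hk0.ne',
            Real.rpow_one]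
      _ < c ^ (1 / (k : ℝ)) := by
          apply Real.rpow_lt_rpow (by positivity) _ (by positivity)
          rw [one_div_pow]
          exact hc1
  obtain ⟨η, hη⟩ : ∃ η : ℝ, η = (2 * g - 1) / 2 := ⟨_, rfl⟩
  have hη0 : 0 < η := by rw [hη]; linarith
  obtain ⟨M, hM⟩ := asy hk hρ hc0 hcρ (r := 1 + η) (by linarith)
  rw [← hg] at hM
  -- the gain
  have hlog1 : Real.log (1 + η) ≥ η / (1 + η) := by
    have h1 := Real.one_sub_inv_le_log_of_pos (x := 1 + η) (by linarith)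
    have h2 : 1 - (1 + η)⁻¹ = η / (1 + η) := by field_simp; ring
    linarith
  have hlog2 : Real.log (1 + η / 2) ≤ η / 2 := by
    have := Real.log_le_sub_one_of_pos (x := 1 + η / 2) (by linarith)
    linarith
  have hgap : η / 2 < g * (η / (1 + η)) := by
    rw [mul_div_assoc', lt_div_iff₀ (by linarith)]
    have h1 : (1 + η) < 2 * g := by rw [hη]; linarith
    nlinarith
  obtain ⟨κ, hκ⟩ : ∃ κ : ℝ, κ = g * Real.log (1 + η) - Real.log (1 + η / 2) := ⟨_, rfl⟩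
  have hκ0 : 0 < κ := by
    rw [hκ]
    have h1 : g * (η / (1 + η)) ≤ g * Real.log (1 + η) :=
      mul_le_mul_of_nonneg_left hlog1 (by linarith)
    linarith
  have hlog : 0 < Real.log 2 := Real.log_pos (by norm_num)
  refine ⟨κ / (2 * Real.log 2), by positivity, M, fun n hn L Z hreq hZ => ?_⟩
  have h1 := hM n hn L Z hreq
  -- `(2 + η) = 2 (1 + η) ^ g exp (- κ)`
  have h2 : (1 + (1 + η)) = 2 * Real.exp (-κ) * (1 + η) ^ g := by
    rw [Real.rpow_def_of_pos (by linarith), mul_assoc, ← Real.exp_add]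
    have h3 : -κ + Real.log (1 + η) * g = Real.log (1 + η / 2) := by rw [hκ]; ring
    rw [h3, Real.exp_log (by linarith)]
    ring
  have h3 : (Z.card : ℝ) ≤ L.length * (2 * Real.exp (-κ)) ^ n := by
    have h4 : (Z.card : ℝ) * ((1 + η) ^ g) ^ n ≤
        L.length * (2 * Real.exp (-κ)) ^ n * ((1 + η) ^ g) ^ n := by
      calc _ ≤ L.length * (1 + (1 + η)) ^ n := h1
        _ = _ := by rw [h2, mul_pow]; ring
    have h5 : 0 < ((1 + η) ^ g : ℝ) := Real.rpow_pos_of_pos (by linarith) _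
    exact le_of_mul_le_mul_right h4 (by positivity)
  have h4 := hZ.trans h3
  have h5 : (2 : ℝ) ^ (κ / (2 * Real.log 2) * n) = Real.exp (κ / 2 * n) := by
    rw [Real.rpow_def_of_pos (by norm_num)]
    congr 1
    field_simp
  have h6 : (2 : ℝ) ^ (-(κ / (2 * Real.log 2) * n)) = Real.exp (-(κ / 2 * n)) := by
    rw [Real.rpow_neg (by norm_num), h5, Real.exp_neg]
  rw [h6, mul_pow, ← Real.exp_nat_mul] at h4
  rw [h5]
  have h7 : Real.exp (-(κ / 2 * n)) * 2 ^ n ≤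
      (L.length * Real.exp (n * -κ)) * 2 ^ n := by
    calc _ ≤ _ := h4
      _ = _ := by ring
  have h8 : Real.exp (-(κ / 2 * n)) ≤ L.length * Real.exp (n * -κ) :=
    le_of_mul_le_mul_right h7 (by positivity)
  have h9 : Real.exp (κ / 2 * n) * Real.exp (n * -κ) ≤ L.length * Real.exp (n * -κ) := by
    rw [← Real.exp_add]
    have : κ / 2 * n + n * -κ = -(κ / 2 * n) := by ring
    rw [this]
    exact h8
  exact le_of_mul_le_mul_right h9 (Real.exp_pos _)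

end Pool.Agent.TH837.KS
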