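import Pool.Agent.TH837.SC.Circ

/-!
(min,+) programs which approximate the number of falsified clauses of a `k`-CNF.
-/

set_option autoImplicit false

namespace Pool.Agent.TH837.KS

open Finset
open scoped ENNReal
open Pool.Agent.TH837.SC (Ins P Ctx val wt val_le le_val sum_wt_of_mem mem_of_sum_wt)

variable {n k : ℕ}

/-- patterns: `k` variables and `k` values; this is also the clause which is falsified if the
variables have these values -/
abbrev Pat (n k : ℕ) : Type := (Fin k → Fin n) × (Fin k → Bool)

/-- the patterns of an assignment -/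
def gr (x : Fin n → Bool) : Set (Pat n k) := {e | e.2 = x ∘ e.1}

/-- the requirements on a program -/
structure KReq (L : List (Ins (Pat n k))) (Z : Finset (Fin n → Bool)) (R : ℝ≥0∞) : Prop where
  sound : ∀ F : Set (Pat n k), val L (wt F) ≠ ⊤ → ∃ x : Fin n → Bool, gr x ⊆ F
  bound : ∀ x ∈ Z, val L (wt (gr x)) ≤ R

variable {Z : Finset (Fin n → Bool)} {L : List (Ins (Pat n k))}

theorem KReq.some {R : ℝ≥0∞} (h : KReq L Z R) {p : Multiset (Pat n k)} (hp : P L p) :
    ∃ y : Fin n → Bool, ∀ e ∈ gr y, e ∈ p := by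
  obtain ⟨c, hc, h1⟩ := val_le hp
  have h2 := h1 (wt {S | S ∈ p})
  rw [sum_wt_of_mem (by intro S hS; exact hS)] at h2
  exact h.sound _ (ne_top_of_le_ne_top (by simp [hc]) h2)

theorem KReq.mono {R : ℝ≥0∞} (h : KReq L Z R) (hR : R ≠ ⊤) (x : Fin n → Bool)
    (hx : x ∈ Z) : ∃ p, P L p ∧ (∀ e ∈ p, e ∈ gr x) ∧ (p.card : ℝ≥0∞) ≤ R := by
  have h1 := h.bound x hx
  obtain ⟨p, hp, h2⟩ := le_val L _ (ne_top_of_le_ne_top hR h1)
  have h3 := mem_of_sum_wt (ne_top_of_le_ne_top hR (h2.trans h1))
  refine ⟨p, hp, h3, ?_⟩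
  rw [sum_wt_of_mem h3] at h2
  exact h2.trans h1

/-- a gate in the middle of a proof tree -/
theorem cut {Ω : Type} {h : ℕ} (hh : 1 ≤ h) {w u : List (Ins Ω)} {p : Multiset Ω} (hP : P u p) :
    ∀ s, Ctx w u s → h < p.card → ∃ (l : List (Ins Ω)) (s' a : Multiset Ω), Ctx w l s' ∧ P l a ∧
      s + p = s' + a ∧ a.card ≤ h ∧ h < 2 * a.card := by
  induction hP with
  | inp S l =>
    intro s _ h1
    rw [Multiset.card_singleton] at h1
    omega
  | cst c l hc =>
    intro s _ h1
    simp at h1
  | mnL i j l p h' ih =>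
    intro s hc h1
    exact ih s (hc.mnL i j l s) h1
  | mnR i j l p h' ih =>
    intro s hc h1
    exact ih s (hc.mnR i j l s) h1
  | ad i j l p q hp hq ih ih' =>
    intro s hc h1
    rw [Multiset.card_add] at h1
    by_cases h2 : h < p.card
    · obtain ⟨l', s', a, h3, h4, h5, h6⟩ := ih (s + q) (hc.adL i j l s q hq) h2
      exact ⟨l', s', a, h3, h4, by rw [← h5]; abel, h6⟩
    · by_cases h3 : h < q.card
      · obtain ⟨l', s', a, h4, h5, h6, h7⟩ := ih' (s + p) (hc.adR i j l s p hp) h3
        exact ⟨l', s', a, h4, h5, by rw [← h6]; abel, h7⟩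
      · rcases le_total q.card p.card with h4 | h4
        · exact ⟨_, s + q, p, hc.adL i j l s q hq, hp, by abel, by omega, by omega⟩
        · exact ⟨_, s + p, q, hc.adR i j l s p hp, hq, by abel, by omega, by omega⟩

/-- the number of agreements -/
def agree (x x' : Fin n → Bool) : ℕ := (univ.filter fun i => x i = x' i).card

theorem card_agree (x x' : Fin n → Bool) :
    (univ.filter fun T : Fin k → Fin n => x ∘ T = x' ∘ T).card = agree x x' ^ k := by
  have h : (univ.filter fun T : Fin k → Fin n => x ∘ T = x' ∘ T) =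
      Fintype.piFinset fun _ => univ.filter fun i => x i = x' i := by
    ext T
    simp only [mem_filter, mem_univ, true_and, Fintype.mem_piFinset]
    exact funext_iff
  rw [h, Fintype.card_piFinset_const, agree]

theorem two_cases (hk : 2 ≤ k) {x x' y : Fin n → Bool}
    (h : ∀ e ∈ (gr y : Set (Pat n k)), e ∈ (gr x : Set (Pat n k)) ∨ e ∈ (gr x' : Set (Pat n k))) :
    y = x ∨ y = x' := by
  by_contra hcon
  rw [not_or] at hcon
  obtain ⟨u, hu⟩ := Function.ne_iff.1 hcon.1
  obtain ⟨v, hv⟩ := Function.ne_iff.1 hcon.2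
  let T : Fin k → Fin n := fun i => if i.1 = 0 then u else v
  rcases h (T, y ∘ T) rfl with h1 | h1
  · have h2 : y ∘ T = x ∘ T := h1
    have h3 := congrFun h2 ⟨0, by omega⟩
    simp only [T, Function.comp_apply, if_true] at h3
    exact hu h3
  · have h2 : y ∘ T = x' ∘ T := h1
    have h3 := congrFun h2 ⟨1, by omega⟩
    simp only [T, Function.comp_apply, one_ne_zero, if_false] at h3
    exact hv h3

/-- few patterns are missing -/
theorem card_missing (z : Fin n → Bool) (p : Multiset (Pat n k)) :
    n ^ k ≤ (univ.filter fun T : Fin k → Fin n => (T, z ∘ T) ∉ p).card + p.card := by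
  classical
  have h1 : (univ.filter fun T : Fin k → Fin n => ¬ (T, z ∘ T) ∉ p).card ≤ p.card := by
    calc _ = ((univ.filter fun T : Fin k → Fin n => ¬ (T, z ∘ T) ∉ p).image
          fun T => (T, z ∘ T)).card := by
          rw [card_image_of_injective]
          intro a b h
          exact (Prod.ext_iff.1 h).1
      _ ≤ p.toFinset.card := by
          refine card_le_card fun e he => ?_
          rw [mem_image] at he
          obtain ⟨T, hT, rfl⟩ := he
          rw [mem_filter, not_not] at hT
          simpa using hT.2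
      _ ≤ p.card := Multiset.toFinset_card_le p
  have h2 := card_filter_add_card_filter_not (s := (univ : Finset (Fin k → Fin n)))
    (fun T => (T, z ∘ T) ∉ p)
  rw [card_univ, Fintype.card_fun, Fintype.card_fin, Fintype.card_fin] at h2
  omega

/-- two assignments whose proof trees pass through the same gate agree often -/
theorem pair (hk : 2 ≤ k) {R : ℝ≥0∞} (h : KReq L Z R) {l : List (Ins (Pat n k))}
    {x x' : Fin n → Bool} {a s'' : Multiset (Pat n k)}
    (ha : P l a) (hax : ∀ e ∈ a, e ∈ gr x) (hc : Ctx L l s'') (hs : ∀ e ∈ s'', e ∈ gr x')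
    {m : ℕ} (h1 : a.card ≤ m) (h2 : s''.card ≤ m) : n ^ k ≤ agree x x' ^ k + m := by
  obtain ⟨y, hy⟩ := h.some (hc.comp a ha)
  have hy' : ∀ e ∈ (gr y : Set (Pat n k)), e ∈ (gr x : Set (Pat n k)) ∨
      e ∈ (gr x' : Set (Pat n k)) := by
    intro e he
    rcases Multiset.mem_add.1 (hy e he) with h3 | h3
    · exact Or.inr (hs e h3)
    · exact Or.inl (hax e h3)
  rw [← card_agree (k := k) x x']
  rcases two_cases hk hy' with rfl | rfl
  · have h3 := card_missing y a
    have h4 : (univ.filter fun T : Fin k → Fin n => (T, y ∘ T) ∉ a).card ≤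
        (univ.filter fun T : Fin k → Fin n => y ∘ T = x' ∘ T).card := by
      refine card_le_card fun T hT => ?_
      rw [mem_filter] at hT ⊢
      refine ⟨mem_univ _, ?_⟩
      rcases Multiset.mem_add.1 (hy (T, y ∘ T) rfl) with h5 | h5
      · exact hs _ h5
      · exact absurd h5 hT.2
    omega
  · have h3 := card_missing y s''
    have h4 : (univ.filter fun T : Fin k → Fin n => (T, y ∘ T) ∉ s'').card ≤
        (univ.filter fun T : Fin k → Fin n => x ∘ T = y ∘ T).card := by
      refine card_le_card fun T hT => ?_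
      rw [mem_filter] at hT ⊢
      refine ⟨mem_univ _, ?_⟩
      rcases Multiset.mem_add.1 (hy (T, y ∘ T) rfl) with h5 | h5
      · exact absurd h5 hT.2
      · have h6 : y ∘ T = x ∘ T := hax _ h5
        exact h6.symm
    omega

theorem mem_gates {α : Type} {l L : List α} (h : l <:+ L) (hl : l ≠ []) :
    ∃ r < L.length, L.drop r = l := by
  obtain ⟨q, rfl⟩ := h
  refine ⟨q.length, ?_, by simp⟩
  have := List.length_pos_iff.2 hl
  rw [List.length_append]; omega

/-- the number of assignments is at most the number of gates times the size of a ball -/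
theorem count (hk : 2 ≤ k) {ρ : ℝ} {h m : ℕ} (hreq : KReq L Z (ENNReal.ofReal (ρ * n ^ k)))
    (hρ : 0 ≤ ρ) (hh : 1 ≤ h) (hhN : h < n ^ k) (hm1 : h ≤ m)
    (hm2 : ρ * n ^ k ≤ m + h / 2) {V : ℕ}
    (hV : ∀ x : Fin n → Bool, (univ.filter fun x' : Fin n → Bool =>
      n ^ k ≤ agree x x' ^ k + m).card ≤ V) : Z.card ≤ L.length * V := by
  classical
  have hdata : ∀ x : Fin n → Bool, ∃ l : List (Ins (Pat n k)), x ∈ Z →
      l ∈ (range L.length).image (fun r => L.drop r) ∧ ∃ s' a, Ctx L l s' ∧ P l a ∧
        (∀ e ∈ a, e ∈ gr x) ∧ (∀ e ∈ s', e ∈ gr x) ∧ a.card ≤ m ∧ s'.card ≤ m := by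
    intro x
    by_cases hx : x ∈ Z
    · obtain ⟨p, hp, hpx, hpc⟩ := hreq.mono (by simp) x hx
      have hpc' : (p.card : ℝ) ≤ ρ * n ^ k := by
        rw [← ENNReal.ofReal_natCast, ENNReal.ofReal_le_ofReal_iff (by positivity)] at hpc
        exact hpc
      have hcard : n ^ k ≤ p.card := by
        obtain ⟨y, hy⟩ := hreq.some hp
        have h1 : (univ.filter fun T : Fin k → Fin n => (T, y ∘ T) ∉ p) = ∅ := by
          rw [filter_eq_empty_iff]
          intro T _
          rw [not_not]
          exact hy _ rfl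
        have h2 := card_missing y p
        rw [h1, card_empty, zero_add] at h2
        exact h2
      obtain ⟨l, s', a, h1, h2, h3, h4, h5⟩ := cut hh hp 0 Ctx.refl (by omega)
      rw [zero_add] at h3
      refine ⟨l, fun _ => ⟨?_, s', a, h1, h2, fun e he => ?_, fun e he => ?_, by omega, ?_⟩⟩
      · have hl : l ≠ [] := by
          rintro rfl
          cases h2
        obtain ⟨r, hr, hr'⟩ := mem_gates h1.suffix hl
        exact mem_image.2 ⟨r, mem_range.2 hr, hr'⟩
      · exact hpx e (by rw [h3]; exact Multiset.mem_add.2 (Or.inr he))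
      · exact hpx e (by rw [h3]; exact Multiset.mem_add.2 (Or.inl he))
      · have h6 : (p.card : ℝ) = s'.card + a.card := by
          rw [h3, Multiset.card_add]; push_cast; rfl
        have h7 : (h : ℝ) + 1 ≤ 2 * a.card := by exact_mod_cast h5
        have h8 : (s'.card : ℝ) ≤ m := by linarith
        exact_mod_cast h8
    · exact ⟨[], fun h' => absurd h' hx⟩
  choose l hl using hdata
  calc Z.card = ∑ c ∈ (range L.length).image (fun r => L.drop r),
        (Z.filter fun x => l x = c).card :=
        card_eq_sum_card_fiberwise fun x hx => (hl x hx).1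
    _ ≤ ∑ _c ∈ (range L.length).image (fun r => L.drop r), V := by
        refine sum_le_sum fun c _ => ?_
        rcases (Z.filter fun x => l x = c).eq_empty_or_nonempty with he | ⟨x, hx⟩
        · rw [he]; simp
        rw [mem_filter] at hx
        obtain ⟨_, s', a, h1, h2, h3, h4, h5, h6⟩ := hl x hx.1
        refine le_trans (card_le_card fun x' hx' => ?_) (hV x)
        rw [mem_filter] at hx'
        obtain ⟨_, s'', a', h1', h2', h3', h4', h5', h6'⟩ := hl x' hx'.1
        rw [mem_filter]
        refine ⟨mem_univ _, pair hk hreq h2 h3 ?_ h4' h5 h6'⟩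
        rw [hx.2, ← hx'.2]
        exact h1'
    _ = ((range L.length).image fun r => L.drop r).card * V := by rw [sum_const, smul_eq_mul]
    _ ≤ L.length * V := by
        refine Nat.mul_le_mul_right _ (card_image_le.trans ?_)
        rw [card_range]

/-- the size of a ball -/
theorem ball (x : Fin n → Bool) {r g : ℝ} (hr : 1 ≤ r) :
    ((univ.filter fun x' : Fin n → Bool => g * n ≤ agree x x').card : ℝ) * r ^ (g * n) ≤
      (1 + r) ^ n := by
  have h1 : ∑ x' : Fin n → Bool, r ^ (agree x x' : ℕ) = (1 + r) ^ n := by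
    have h2 : ∀ x' : Fin n → Bool, r ^ (agree x x' : ℕ) = ∏ i, (if x i = x' i then r else 1) := by
      intro x'
      rw [agree, ← prod_filter_mul_prod_filter_not (s := (univ : Finset (Fin n)))
        (fun i => x i = x' i), prod_congr rfl (g := fun _ => r) (fun i hi => by
          rw [if_pos (mem_filter.1 hi).2]), prod_const,
        prod_congr (s₁ := univ.filter fun i => ¬ x i = x' i) rfl (g := fun _ => (1 : ℝ))
          (fun i hi => by rw [if_neg (mem_filter.1 hi).2]), prod_const_one, mul_one]
    rw [sum_congr rfl fun x' _ => h2 x']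
    have h3 := prod_univ_sum (fun _ : Fin n => (univ : Finset Bool))
      (fun i b => if x i = b then r else 1)
    rw [Fintype.piFinset_univ] at h3
    rw [← h3]
    have h4 : ∀ i, ∑ b : Bool, (if x i = b then r else 1) = 1 + r := by
      intro i
      cases x i <;> simp [add_comm]
    rw [prod_congr rfl fun i _ => h4 i, prod_const, card_univ, Fintype.card_fin]
  rw [← h1, ← nsmul_eq_mul, ← sum_const]
  refine (sum_le_sum fun x' hx' => ?_).trans
    (sum_le_sum_of_subset_of_nonneg (filter_subset _ univ) fun _ _ _ => by positivity)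
  rw [mem_filter] at hx'
  calc r ^ (g * n) ≤ r ^ ((agree x x' : ℕ) : ℝ) :=
        Real.rpow_le_rpow_of_exponent_le hr hx'.2
    _ = r ^ (agree x x' : ℕ) := Real.rpow_natCast _ _

end Pool.Agent.TH837.KS
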