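import Pool.Agent.TH837.KS.Asy
import Pool.Agent.TH837.SC.Sem

/-!
Randomised (min,+) programs for the weighted falsified clauses of a `k`-CNF.
-/

set_option autoImplicit false

namespace Pool.Agent.TH837.KS

open Finset
open scoped ENNReal
open Pool.Agent.TH837.SC (Ins val wt Prog Computes)

variable {n k : ℕ}

/-- the assignment `x` satisfies the formula `φ`: it falsifies no clause of `φ` -/
def Sat (x : Fin n → Bool) (φ : Finset (Pat n k)) : Prop := ∀ T : Fin k → Fin n, (T, x ∘ T) ∉ φ

/-- the least total weight of the clauses falsified by an assignment -/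
noncomputable def opt (w : Pat n k → ℝ≥0∞) : ℝ≥0∞ :=
  ⨅ x : Fin n → Bool, ∑ T : Fin k → Fin n, w (T, x ∘ T)

/-- the clauses of the formula `φ` have weight infinity, the others have weight one -/
noncomputable def wf (φ : Finset (Pat n k)) : Pat n k → ℝ≥0∞ := fun e => if e ∈ φ then ⊤ else 1

/-- a randomised program (with the uniform distribution on `R`) which never returns less than the
optimum, and which on each formula with exactly one satisfying assignment returns at most `ρ` times
the optimum with probability at least `q` -/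
structure RandApprox (ρ q : ℝ) {R : Type} [Fintype R]
    (f : R → (Pat n k → ℝ≥0∞) → ℝ≥0∞) : Prop where
  sound : ∀ (r : R) (φ : Finset (Pat n k)), opt (wf φ) ≤ f r (wf φ)
  good : ∀ φ : Finset (Pat n k), (∃! x : Fin n → Bool, Sat x φ) → q * Nat.card R ≤
    Nat.card {r : R // f r (wf φ) ≤ ENNReal.ofReal ρ * opt (wf φ)}

theorem opt_wf_of_sat {φ : Finset (Pat n k)} {x : Fin n → Bool} (h : Sat x φ) :
    opt (wf φ) ≤ (n : ℝ≥0∞) ^ k := by
  refine (iInf_le _ x).trans ?_
  rw [sum_congr rfl (g := fun _ => (1 : ℝ≥0∞)) (fun T _ => by simp [wf, h T])]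
  simp

theorem sat_of_opt_wf {φ : Finset (Pat n k)} (h : opt (wf φ) ≠ ⊤) :
    ∃ x : Fin n → Bool, Sat x φ := by
  by_contra hF
  apply h
  rw [opt, iInf_eq_top]
  intro x
  have : ∃ T : Fin k → Fin n, (T, x ∘ T) ∈ φ := by
    by_contra hcon
    push Not at hcon
    exact hF ⟨x, hcon⟩
  obtain ⟨T, hT⟩ := this
  rw [ENNReal.sum_eq_top]
  exact ⟨T, mem_univ _, by simp [wf, hT]⟩

/-- a sanity check: the optimum is finite exactly for the satisfiable formulas -/
theorem opt_wf_ne_top {φ : Finset (Pat n k)} : opt (wf φ) ≠ ⊤ ↔ ∃ x : Fin n → Bool, Sat x φ := by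
  refine ⟨sat_of_opt_wf, fun ⟨x, hx⟩ => ne_top_of_le_ne_top ?_ (opt_wf_of_sat hx)⟩
  exact ENNReal.pow_ne_top (ENNReal.natCast_ne_top n)

/-- the clauses which are satisfied by `x` -/
def frm (k : ℕ) (x : Fin n → Bool) : Finset (Pat n k) := univ.filter fun e => e.2 ≠ x ∘ e.1

theorem sat_frm (hk : 1 ≤ k) (x y : Fin n → Bool) : Sat y (frm k x) ↔ y = x := by
  constructor
  · intro h
    funext i
    have h1 := h fun _ => i
    simp only [frm, mem_filter, mem_univ, true_and, ne_eq, Decidable.not_not] at h1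
    have h2 := congrFun h1 ⟨0, hk⟩
    simpa using h2
  · rintro rfl T
    simp [frm]

theorem wf_frm (x : Fin n → Bool) : wf (frm k x) = wt (gr x : Set (Pat n k)) := by
  classical
  funext e
  by_cases h : e.2 = x ∘ e.1
  · simp [wf, frm, wt, gr, h]
  · simp [wf, frm, wt, gr, h]

/-- averaging over the random programs -/
theorem rand (hk : 1 ≤ k) {ρ q : ℝ} (hρ : 0 ≤ ρ) {R : Type} [Fintype R] [Nonempty R]
    {f : R → (Pat n k → ℝ≥0∞) → ℝ≥0∞} (hf : RandApprox ρ q f) {s : ℕ}
    (hs : ∀ r, Computes (f r) s) :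
    ∃ (L : List (Ins (Pat n k))) (Z : Finset (Fin n → Bool)), L.length ≤ s ∧
      KReq L Z (ENNReal.ofReal (ρ * n ^ k)) ∧ q * 2 ^ n ≤ Z.card := by
  classical
  let T : R → Finset (Fin n → Bool) := fun r =>
    univ.filter fun x => f r (wf (frm k x)) ≤ ENNReal.ofReal (ρ * n ^ k)
  have hcard : (univ : Finset (Fin n → Bool)).card = 2 ^ n := by simp
  have h1 : ∃ r, q * 2 ^ n ≤ (T r).card := by
    by_contra hcon
    push Not at hcon
    have h2 : ∑ r : R, ((T r).card : ℝ) < ∑ _r : R, q * 2 ^ n :=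
      sum_lt_sum_of_nonempty univ_nonempty fun r _ => hcon r
    have h3 : ∑ r : R, ((T r).card : ℝ) =
        ∑ x : Fin n → Bool, ((univ.filter fun r : R =>
          f r (wf (frm k x)) ≤ ENNReal.ofReal (ρ * n ^ k)).card : ℝ) := by
      have : ∑ r : R, (T r).card = ∑ x : Fin n → Bool, (univ.filter fun r : R =>
          f r (wf (frm k x)) ≤ ENNReal.ofReal (ρ * n ^ k)).card := by
        simp only [T, card_filter]
        exact sum_comm
      exact_mod_cast this
    have h4 : ∑ _x : Fin n → Bool, q * Nat.card R ≤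
        ∑ x : Fin n → Bool, ((univ.filter fun r : R =>
          f r (wf (frm k x)) ≤ ENNReal.ofReal (ρ * n ^ k)).card : ℝ) := by
      refine sum_le_sum fun x _ => (hf.good (frm k x)
        ⟨x, (sat_frm hk x x).2 rfl, fun y hy => (sat_frm hk x y).1 hy⟩).trans ?_
      rw [Nat.card_eq_fintype_card, Fintype.card_subtype]
      refine Nat.cast_le.2 (card_le_card fun r hr => ?_)
      rw [mem_filter] at hr ⊢
      refine ⟨mem_univ _, hr.2.trans ?_⟩
      rw [ENNReal.ofReal_mul hρ]
      refine mul_le_mul_right ?_ _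
      rw [ENNReal.ofReal_pow (by positivity), ENNReal.ofReal_natCast]
      exact opt_wf_of_sat ((sat_frm hk x x).2 rfl)
    rw [sum_const, hcard, nsmul_eq_mul] at h4
    rw [h3, sum_const, card_univ, nsmul_eq_mul] at h2
    rw [Nat.card_eq_fintype_card] at h4
    push_cast at h4
    nlinarith
  obtain ⟨r, hr⟩ := h1
  obtain ⟨L, hL, hval⟩ := (hs r).toIns
  refine ⟨L, T r, hL, ⟨?_, ?_⟩, hr⟩
  · intro F hF
    have h3 : wf (univ.filter fun e : Pat n k => e ∉ F) = wt F := by
      funext e
      by_cases h : e ∈ F <;> simp [wf, wt, h]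
    have h2 : ∃ x : Fin n → Bool, Sat x (univ.filter fun e : Pat n k => e ∉ F) := by
      apply sat_of_opt_wf
      refine ne_top_of_le_ne_top hF ?_
      rw [hval, ← h3]
      exact hf.sound r _
    obtain ⟨x, hx⟩ := h2
    refine ⟨x, fun e he => ?_⟩
    obtain ⟨T', v⟩ := e
    have he' : v = x ∘ T' := he
    subst he'
    have h4 := hx T'
    simpa using h4
  · intro x hx
    rw [hval, ← wf_frm]
    exact (mem_filter.1 hx).2

end Pool.Agent.TH837.KS
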