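import Pool.Agent.TH837.KS.Sem

/-!
The exact (min,+) program of brute force, and the lower bound with all polynomial factors.
-/

set_option autoImplicit false

namespace Pool.Agent.TH837.KS

open Finset Filter
open scoped ENNReal Topology
open Pool.Agent.TH837.SC (Ins val wt Prog Computes load fold_min fold_add)

variable {n k : ℕ}

/-- the weight of the clauses falsified by `x` -/
noncomputable def cost (x : Fin n → Bool) (w : Pat n k → ℝ≥0∞) : ℝ≥0∞ :=
  ∑ T : Fin k → Fin n, w (T, x ∘ T)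

theorem costs {l : List ((Pat n k → ℝ≥0∞) → ℝ≥0∞)} (hl : Prog l) (h0 : (fun _ => (0 : ℝ≥0∞)) ∈ l)
    (hin : ∀ e : Pat n k, (fun w => w e) ∈ l) : ∀ xs : List (Fin n → Bool),
    ∃ l', Prog l' ∧ (∀ f ∈ l, f ∈ l') ∧ l'.length = l.length + xs.length * n ^ k ∧
      ∀ x ∈ xs, cost x ∈ l' := by
  intro xs
  induction xs with
  | nil => exact ⟨l, hl, fun _ h => h, by simp, by simp⟩
  | cons x xs ih =>
    obtain ⟨l', h1, h2, h3, h4⟩ := ih
    obtain ⟨l'', h5, h6, h7, h8⟩ := fold_add h1 _ (h2 _ h0)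
      ((univ : Finset (Fin k → Fin n)).toList.map fun T w => w (T, x ∘ T))
      (fun g hg => by
        obtain ⟨T, _, rfl⟩ := List.mem_map.1 hg
        exact h2 _ (hin _))
    refine ⟨l'', h5, fun f hf => h6 f (h2 f hf), ?_, ?_⟩
    · rw [h7, h3, List.length_map, length_toList, List.length_cons, card_univ, Fintype.card_fun,
        Fintype.card_fin, Fintype.card_fin]
      ring
    · intro x' hx'
      rcases List.mem_cons.1 hx' with rfl | hx'
      · have : (fun w => ((univ : Finset (Fin k → Fin n)).toList.map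
            fun T (w : Pat n k → ℝ≥0∞) => w (T, x' ∘ T)).foldr
            (fun g a => g w + a) 0) = cost x' := by
          funext w
          have aux : ∀ es : List (Fin k → Fin n),
              (es.map fun T (w : Pat n k → ℝ≥0∞) => w (T, x' ∘ T)).foldr
              (fun g a => g w + a) 0 = (es.map fun T => w (T, x' ∘ T)).sum := by
            intro es
            induction es with
            | nil => simp
            | cons e es ih => rw [List.map_cons, List.foldr_cons, ih]; simp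
          rw [aux, sum_map_toList, cost]
        rwa [this] at h8
      · exact h6 _ (h4 x' hx')

/-- brute force -/
theorem computes_opt (n k : ℕ) :
    Computes (opt : (Pat n k → ℝ≥0∞) → ℝ≥0∞) (2 ^ n * (n ^ k + 1) + (2 * n) ^ k + 2) := by
  classical
  obtain ⟨l₁, h1, h2, h3, h4⟩ := load (Ω := Pat n k)
    (Prog.cst _ ⊤ (Prog.cst _ 0 Prog.nil)) univ.toList
  obtain ⟨l₂, h5, h6, h7, h8⟩ := costs h1 (h2 _ (by simp)) (fun e => h4 e (by simp))
    (univ : Finset (Fin n → Bool)).toList
  obtain ⟨l₃, h9, h10, h11, h12⟩ := fold_min h5 (fun _ => ⊤) (h6 _ (h2 _ (by simp)))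
    ((univ : Finset (Fin n → Bool)).toList.map fun x => cost x)
    (fun g hg => by
      obtain ⟨x, _, rfl⟩ := List.mem_map.1 hg
      exact h8 x (by simp))
  refine ⟨l₃, h9, ?_, ?_⟩
  · have : (fun w => ((univ : Finset (Fin n → Bool)).toList.map fun x => (cost x :
        (Pat n k → ℝ≥0∞) → ℝ≥0∞)).foldr (fun g a => min (g w) a) ⊤) = opt := by
      funext w
      have aux : ∀ xs : List (Fin n → Bool), (xs.map fun x => (cost x :
          (Pat n k → ℝ≥0∞) → ℝ≥0∞)).foldr (fun g a => min (g w) a) ⊤ =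
          xs.toFinset.inf fun x => cost x w := by
        intro xs
        induction xs with
        | nil => simp
        | cons x xs ih => rw [List.map_cons, List.foldr_cons, ih, List.toFinset_cons, inf_insert]
      rw [aux, toList_toFinset, inf_univ_eq_iInf]
      rfl
    rwa [this] at h12
  · rw [h11, h7, h3, List.length_map, length_toList, length_toList, card_univ, card_univ]
    simp only [List.length_cons, List.length_nil, Fintype.card_prod, Fintype.card_fun,
      Fintype.card_fin, Fintype.card_bool]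
    rw [mul_pow]
    apply le_of_eq
    ring

/-- all powers of the number of the clauses are smaller than each exponential function -/
theorem poly_lt {δ : ℝ} (hδ : 0 < δ) (k A : ℕ) : ∃ M : ℕ, ∀ n ≥ M,
    ((2 * n : ℝ) ^ k) ^ A < 2 ^ (δ * n) := by
  have hb : (1 : ℝ) < 2 ^ δ := Real.one_lt_rpow (by norm_num) hδ
  have h1 := tendsto_pow_const_div_const_pow_of_one_lt (k * A) hb
  have h2 := h1.const_mul ((2 : ℝ) ^ (k * A))
  rw [mul_zero] at h2
  obtain ⟨M, hM⟩ := eventually_atTop.1 (h2.eventually_lt_const (zero_lt_one))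
  refine ⟨M, fun n hn => ?_⟩
  have h3 := hM n hn
  rw [mul_div_assoc', div_lt_one (by positivity)] at h3
  rw [two_rpow_mul, ← pow_mul, mul_pow]
  exact h3

theorem seth' (ρ ε : ℝ) (hρ : 1 ≤ ρ) (hρ2 : ρ < 3 / 2) (hε : 0 < ε) (hε1 : ε < 1) :
    ∃ k₀ : ℕ, ∀ k ≥ k₀, ∀ A : ℕ, ∃ M : ℕ, ∀ n ≥ M, ∀ (R : Type) [Fintype R] [Nonempty R]
      (f : R → (Pat n k → ℝ≥0∞) → ℝ≥0∞), RandApprox ρ (2 ^ (-(ε / 4 * n))) f →
      ∀ s : ℕ, (∀ r, Computes (f r) s) → (2 : ℝ) ^ ((1 - ε) * n) * ((2 * n) ^ k) ^ A < s := by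
  obtain ⟨k₀, hk₀⟩ := seth ρ (ε / 2) hρ hρ2 (by linarith) (by linarith)
  refine ⟨max k₀ 1, fun k hk A => ?_⟩
  obtain ⟨M₁, hM₁⟩ := hk₀ k (le_trans (le_max_left _ _) hk)
  obtain ⟨M₂, hM₂⟩ := poly_lt (show 0 < ε / 2 by linarith) k A
  refine ⟨max M₁ M₂, fun n hn R _ _ f hf s hs => ?_⟩
  obtain ⟨L, Z, hL, hreq, hZ⟩ := rand (le_trans (le_max_right _ _) hk) (by linarith) hf hs
  have h1 := hM₁ n (le_trans (le_max_left _ _) hn) L Z hreq (by
    refine le_trans (le_of_eq ?_) hZ
    congr 3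
    ring)
  have h2 := hM₂ n (le_trans (le_max_right _ _) hn)
  calc (2 : ℝ) ^ ((1 - ε) * n) * ((2 * n) ^ k) ^ A
      ≤ (2 : ℝ) ^ ((1 - ε) * n) * 2 ^ (ε / 2 * n) := by gcongr
    _ = 2 ^ ((1 - ε / 2) * n) := by
        rw [← Real.rpow_add (by norm_num)]
        congr 1
        ring
    _ < L.length := h1
    _ ≤ s := by exact_mod_cast hL

end Pool.Agent.TH837.KS
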